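import Mathlib
import Pool.Agent.H874Z.CA.Defs

set_option autoImplicit false

namespace Pool.Agent.H874Z.CA

open Set Filter Topology MeasureTheory Pool.Agent.H244Z.CB

namespace EtAux

theorem et_refl (x : ℕ → Bool) : Et x x := ⟨0, 0, fun _ => rfl⟩

theorem et_symm {x y : ℕ → Bool} (h : Et x y) : Et y x := by
  obtain ⟨a, b, h⟩ := h
  exact ⟨b, a, fun n => (h n).symm⟩

theorem et_trans {x y z : ℕ → Bool} (h : Et x y) (h' : Et y z) : Et x z := by
  obtain ⟨a, b, h⟩ := h
  obtain ⟨c, d, h'⟩ := h'
  refine ⟨c + a, b + d, fun n => ?_⟩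
  rw [← add_assoc, h, add_right_comm, h', add_assoc]

theorem et_equiv : Equivalence Et := ⟨et_refl, et_symm, et_trans⟩

/-- the first `a` bits of `s` followed by `z` -/
def cat (a : ℕ) (s z : ℕ → Bool) (n : ℕ) : Bool := if n < a then s n else z (n - a)

/-- `x` starts with the first `a` bits of `s` -/
def pre (a : ℕ) (s x : ℕ → Bool) : Prop := ∀ n < a, x n = s n

/-- the shift -/
def sh (a : ℕ) (x : ℕ → Bool) (n : ℕ) : Bool := x (n + a)

theorem pre_cat (a : ℕ) (s z : ℕ → Bool) : pre a s (cat a s z) := fun _ hn => if_pos hn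

theorem sh_cat (a : ℕ) (s z : ℕ → Bool) : sh a (cat a s z) = z := by
  funext n
  simp [sh, cat]

theorem cat_sh {a : ℕ} {s x : ℕ → Bool} (h : pre a s x) : cat a s (sh a x) = x := by
  funext n
  unfold cat sh
  split_ifs with hn
  · exact (h n hn).symm
  · rw [Nat.sub_add_cancel (not_lt.mp hn)]

theorem pre_clopen (a : ℕ) (s : ℕ → Bool) : IsClopen {x | pre a s x} := by
  have : {x | pre a s x} = ⋂ n ∈ Finset.range a, (fun x : ℕ → Bool => x n) ⁻¹' {s n} := by
    ext x
    simp [pre]
  rw [this]
  exact isClopen_biInter_finset fun n _ => (isClopen_discrete _).preimage (continuous_apply n)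

theorem cont_cat_sh (a b : ℕ) (s : ℕ → Bool) : Continuous fun x => cat a s (sh b x) := by
  refine continuous_pi fun n => ?_
  unfold cat sh
  split_ifs
  · exact continuous_const
  · exact continuous_apply _

open Classical in
/-- exchanging two initial words -/
noncomputable def swp (a b : ℕ) (s t x : ℕ → Bool) : ℕ → Bool :=
  if pre a s x then cat b t (sh a x) else if pre b t x then cat a s (sh b x) else x

theorem swp_cont (a b : ℕ) (s t : ℕ → Bool) : Continuous (swp a b s t) := by
  classical
  unfold swp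
  refine Continuous.if ?_ (cont_cat_sh _ _ _) (Continuous.if ?_ (cont_cat_sh _ _ _) continuous_id)
  · intro x hx
    rw [(pre_clopen a s).frontier_eq] at hx
    exact hx.elim
  · intro x hx
    rw [(pre_clopen b t).frontier_eq] at hx
    exact hx.elim

theorem swp_invol {a b : ℕ} {s t : ℕ → Bool} (h : ∀ x, pre a s x → ¬ pre b t x) (x : ℕ → Bool) :
    swp a b s t (swp a b s t x) = x := by
  by_cases h1 : pre a s x
  · have e : swp a b s t x = cat b t (sh a x) := if_pos h1
    have h2 := pre_cat b t (sh a x)
    rw [e, swp, if_neg (fun h3 => h _ h3 h2), if_pos h2, sh_cat, cat_sh h1]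
  · by_cases h2 : pre b t x
    · have e : swp a b s t x = cat a s (sh b x) := by rw [swp, if_neg h1, if_pos h2]
      rw [e, swp, if_pos (pre_cat _ _ _), sh_cat, cat_sh h2]
    · have e : swp a b s t x = x := by rw [swp, if_neg h1, if_neg h2]
      rw [e, e]

theorem et_cat (a b : ℕ) (t x : ℕ → Bool) : Et x (cat b t (sh a x)) :=
  ⟨a, b, fun n => by simp [cat, sh]⟩

theorem et_swp (a b : ℕ) (s t x : ℕ → Bool) : Et x (swp a b s t x) := by
  unfold swp
  split_ifs
  · exact et_cat _ _ _ _
  · exact et_cat _ _ _ _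
  · exact et_refl x

theorem part2 : ∃ h : ℕ → (ℕ → Bool) ≃ₜ (ℕ → Bool), (∀ i x, Et x (h i x)) ∧
    ∀ x y, Et x y → ∃ i, h i x = y := by
  classical
  let H : (Σ a : ℕ, Fin a → Bool) × (Σ a : ℕ, Fin a → Bool) → (ℕ → Bool) ≃ₜ (ℕ → Bool) :=
    fun p => if h : ∀ x, pre p.1.1 (xt p.1.2) x → ¬ pre p.2.1 (xt p.2.2) x then
      { toFun := swp p.1.1 p.2.1 (xt p.1.2) (xt p.2.2)
        invFun := swp p.1.1 p.2.1 (xt p.1.2) (xt p.2.2)
        left_inv := swp_invol h
        right_inv := swp_invol h
        continuous_toFun := swp_cont _ _ _ _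
        continuous_invFun := swp_cont _ _ _ _ } else Homeomorph.refl _
  obtain ⟨e, he⟩ := exists_surjective_nat ((Σ a : ℕ, Fin a → Bool) × (Σ a : ℕ, Fin a → Bool))
  refine ⟨fun i => H (e i), fun i x => ?_, fun x y hxy => ?_⟩
  · simp only [H]
    split_ifs
    · exact et_swp _ _ _ _ _
    · exact et_refl x
  · by_cases h : x = y
    · obtain ⟨i, hi⟩ := he (⟨0, Fin.elim0⟩, ⟨0, Fin.elim0⟩)
      refine ⟨i, ?_⟩
      simp only [hi, H]
      rw [dif_neg]
      · exact h
      · intro h1
        exact h1 x (fun n hn => absurd hn (Nat.not_lt_zero n))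
          (fun n hn => absurd hn (Nat.not_lt_zero n))
    · obtain ⟨j, hj⟩ := Function.ne_iff.mp h
      obtain ⟨a, b, hab⟩ := hxy
      obtain ⟨i, hi⟩ := he (⟨j + 1 + a, fun n => x n⟩, ⟨j + 1 + b, fun n => y n⟩)
      have h1 : pre (j + 1 + a) (xt fun n : Fin (j + 1 + a) => x n) x := fun n hn => by
        simp [xt, hn]
      refine ⟨i, ?_⟩
      simp only [hi, H]
      rw [dif_pos]
      · show swp _ _ _ _ x = y
        rw [swp, if_pos h1]
        funext n
        unfold cat sh
        split_ifs with hn
        · simp [xt, hn]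
        · rw [← add_assoc, hab]
          congr 1
          omega
      · intro z h2 h3
        have a1 := h2 j (by omega)
        have a2 := h3 j (by omega)
        simp only [xt, show j < j + 1 + a by omega, show j < j + 1 + b by omega, dif_pos] at a1 a2
        exact hj (a1.symm.trans a2)

/-- the first `n` bits of `u` occur in `x` at position `m` -/
def occ (x u : ℕ → Bool) (n m : ℕ) : Prop := ∀ i < n, x (i + m) = u i

theorem meas_occ {f : (ℕ → Bool) → ℕ → Bool} (hf : Measurable f) (n m : ℕ) :
    MeasurableSet {x | occ x (f x) n m} := by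
  have : {x | occ x (f x) n m} = ⋂ i, ⋂ _ : i < n, {x | x (i + m) = f x i} := by
    ext x
    simp [occ]
  rw [this]
  exact MeasurableSet.iInter fun i => MeasurableSet.iInter fun _ =>
    measurableSet_eq_fun (measurable_pi_apply _) ((measurable_pi_apply i).comp hf)

/-- infinitely many occurrences -/
def Fr (x u : ℕ → Bool) (n : ℕ) : Prop := ∀ N, ∃ m, N ≤ m ∧ occ x u n m

theorem meas_fr {f : (ℕ → Bool) → ℕ → Bool} (hf : Measurable f) (n : ℕ) :
    MeasurableSet {x | Fr x (f x) n} := by
  have : {x | Fr x (f x) n} = ⋂ N, ⋃ m, ⋃ _ : N ≤ m, {x | occ x (f x) n m} := by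
    ext x
    simp [Fr]
  rw [this]
  exact MeasurableSet.iInter fun N => MeasurableSet.iUnion fun m =>
    MeasurableSet.iUnion fun _ => meas_occ hf n m

theorem fr_of_et {x y u : ℕ → Bool} {n : ℕ} (h : Et x y) (hx : Fr x u n) : Fr y u n := by
  obtain ⟨a, b, h⟩ := h
  intro N
  obtain ⟨m, hm, ho⟩ := hx (N + a)
  refine ⟨m - a + b, by omega, fun i hi => ?_⟩
  rw [← add_assoc, ← h, ← ho i hi]
  congr 1
  omega

open Classical in
/-- approximations of the least limit word -/
noncomputable def U (x : ℕ → Bool) : ℕ → ℕ → Bool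
  | 0 => fun _ => false
  | n + 1 => if Fr x (Function.update (U x n) n false) (n + 1) then
      Function.update (U x n) n false else Function.update (U x n) n true

theorem meas_U (n : ℕ) : Measurable fun x => U x n := by
  classical
  induction n with
  | zero => exact measurable_const
  | succ n ih =>
    have h : ∀ b : Bool, Measurable fun x => Function.update (U x n) n b := fun b =>
      measurable_update_left.comp ih
    exact Measurable.ite (meas_fr (h false) (n + 1)) (h false) (h true)

theorem U_congr {x y : ℕ → Bool} (h : Et x y) (n : ℕ) : U x n = U y n := by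
  induction n with
  | zero => rfl
  | succ n ih =>
    rw [U, U, ih]
    by_cases h1 : Fr y (Function.update (U y n) n false) (n + 1)
    · rw [if_pos h1, if_pos (fr_of_et (et_symm h) h1)]
    · rw [if_neg h1, if_neg fun h2 => h1 (fr_of_et h h2)]

theorem U_succ (x : ℕ → Bool) {n i : ℕ} (h : i < n) : U x (n + 1) i = U x n i := by
  simp only [U]
  split_ifs <;> exact Function.update_of_ne h.ne _ _

theorem U_stable (x : ℕ → Bool) {n i : ℕ} (h : i < n) : U x n i = U x (i + 1) i := by
  induction n with
  | zero => exact absurd h (Nat.not_lt_zero i)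
  | succ n ih =>
    rcases Nat.lt_succ_iff_lt_or_eq.mp h with h1 | h1
    · rw [U_succ x h1, ih h1]
    · rw [h1]

theorem fr_U (x : ℕ → Bool) (n : ℕ) : Fr x (U x n) n := by
  induction n with
  | zero => exact fun N => ⟨N, le_rfl, fun i hi => absurd hi (Nat.not_lt_zero i)⟩
  | succ n ih =>
    simp only [U]
    split_ifs with h
    · exact h
    · unfold Fr at h
      push Not at h
      obtain ⟨N₀, h⟩ := h
      intro N
      obtain ⟨m, hm, ho⟩ := ih (max N N₀)
      have key : ∀ b, x (n + m) = b → occ x (Function.update (U x n) n b) (n + 1) m := by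
        intro b hb i hi
        rcases Nat.lt_succ_iff_lt_or_eq.mp hi with h1 | h1
        · rw [Function.update_of_ne h1.ne]
          exact ho i h1
        · rw [h1, Function.update_self]
          exact hb
      refine ⟨m, (le_max_left _ _).trans hm, key true ?_⟩
      by_contra h2
      exact h m ((le_max_right _ _).trans hm) (key false (by simpa using h2))

theorem exists_w : ∃ w : (ℕ → Bool) → ℕ → Bool, Measurable w ∧ (∀ x y, Et x y → w x = w y) ∧
    ∀ x n, ∃ m, occ x (w x) n m := by
  refine ⟨fun x i => U x (i + 1) i, measurable_pi_lambda _ fun i =>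
    (measurable_pi_apply i).comp (meas_U (i + 1)), fun x y h => ?_, fun x n => ?_⟩
  · funext i
    exact congrFun (U_congr h (i + 1)) i
  · obtain ⟨m, -, ho⟩ := fr_U x n 0
    exact ⟨m, fun i hi => (ho i hi).trans (U_stable x hi)⟩

/-- a number coding the first `d` bits -/
def cd (d : ℕ) (z : ℕ → Bool) : ℕ := Encodable.encode (List.ofFn fun i : Fin d => z i)

theorem cd_inj {d d' : ℕ} {z z' : ℕ → Bool} (h : cd d z = cd d' z') :
    d = d' ∧ ∀ i < d, z i = z' i := by
  have h1 := Encodable.encode_injective h
  have h2 : d = d' := by simpa using congrArg List.length h1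
  subst h2
  refine ⟨rfl, fun i hi => ?_⟩
  exact congrFun (List.ofFn_injective h1) ⟨i, hi⟩

theorem meas_cd (d : ℕ) : Measurable (cd d) := by
  have h : Measurable fun (z : ℕ → Bool) (i : Fin d) => z i :=
    measurable_pi_lambda _ fun i => measurable_pi_apply _
  exact (measurable_of_countable fun v : Fin d → Bool => Encodable.encode (List.ofFn v)).comp h

theorem meas_sh (a : ℕ) : Measurable (sh a) :=
  measurable_pi_lambda _ fun _ => measurable_pi_apply _

theorem part1 : ∃ en : (ℕ → Bool) → ℕ → ℕ, Measurable en ∧ Function.Injective en ∧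
    ∀ x y, Et x y ↔ ∃ N, ∀ m ≥ N, en x m = en y m := by
  classical
  obtain ⟨w, wm, wi, wo⟩ := exists_w
  let k : ℕ → (ℕ → Bool) → ℕ := fun n x => Nat.find (wo x n)
  have km : ∀ n, Measurable (k n) := fun n => measurable_find (fun x => wo x n) (meas_occ wm n)
  have ks : ∀ n x, occ x (w x) n (k n x) := fun n x => Nat.find_spec (wo x n)
  have kl : ∀ n x m, occ x (w x) n m → k n x ≤ m := fun n x m h => Nat.find_min' (wo x n) h
  have k0 : ∀ x, k 0 x = 0 := fun x =>
    Nat.le_zero.mp (kl 0 x 0 fun i hi => absurd hi (Nat.not_lt_zero i))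
  have kmono : ∀ x, Monotone fun n => k n x := fun x n n' h =>
    kl n x _ fun i hi => ks n' x i (hi.trans_le h)
  have kinf : ∀ x, ¬ Et x (w x) → ∀ B, ∃ n, B ≤ k n x := by
    intro x hx B
    by_contra h
    push Not at h
    obtain ⟨m, n₀, hm⟩ := converges_of_monotone_of_bounded (kmono x) fun n => (h n).le
    refine hx ⟨m, 0, fun i => ?_⟩
    have := ks (max n₀ (i + 1)) x i (lt_of_lt_of_le (Nat.lt_succ_self i) (le_max_right _ _))
    rwa [hm _ (le_max_left _ _)] at this
  let P : ℕ → (ℕ → Bool) → Prop := fun n x => ∀ i, x (i + n.unpair.1) = w x (i + n.unpair.2)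
  have Pm : ∀ n, MeasurableSet {x | P n x} := fun n => by
    simp only [P, Set.ofPred_forall]
    exact MeasurableSet.iInter fun i =>
      measurableSet_eq_fun (measurable_pi_apply _) ((measurable_pi_apply _).comp wm)
  have PS : ∀ x, Et x (w x) ↔ ∃ n, P n x := fun x =>
    ⟨fun ⟨a, b, h⟩ => ⟨Nat.pair a b, by simpa [P] using h⟩, fun ⟨n, h⟩ => ⟨_, _, h⟩⟩
  have Sm : MeasurableSet {x | Et x (w x)} := by
    simp only [PS, Set.ofPred_exists]
    exact MeasurableSet.iUnion Pm
  have Si : ∀ x y, Et x y → Et x (w x) → Et y (w y) := fun x y h hx => by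
    rw [← wi x y h]
    exact et_trans (et_symm h) hx
  obtain ⟨c, cm, hc⟩ := meas_least P Pm
  let e₁ : (ℕ → Bool) → ℕ → ℕ := fun x n =>
    Nat.casesOn n (Nat.pair (c x) (cd (c x).unpair.1 x)) fun n => (w x n).toNat
  let e₂ : (ℕ → Bool) → ℕ → ℕ := fun x n => cd (k (n + 1) x - k n x) (sh (k n x) x)
  have m1 : ∀ n, Measurable fun x => e₁ x n := by
    rintro (_ | n)
    · exact meas_index cm (F := fun i x => Nat.pair i (cd i.unpair.1 x)) fun i =>
        (measurable_of_countable (Nat.pair i)).comp (meas_cd _)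
    · exact (measurable_of_countable Bool.toNat).comp ((measurable_pi_apply n).comp wm)
  have m2 : ∀ n, Measurable fun x => e₂ x n := fun n =>
    meas_index ((km (n + 1)).prodMk (km n)) (F := fun p x => cd (p.1 - p.2) (sh p.2 x)) fun p =>
      (meas_cd _).comp (meas_sh _)
  have tn : ∀ a b : Bool, a.toNat = b.toNat → a = b := by decide
  have key : ∀ x y N, ¬ Et x (w x) → (∀ m ≥ N, e₂ x m = e₂ y m) →
      ∀ i, x (i + k N x) = y (i + k N y) := by
    intro x y N hx h
    have h1 : ∀ j, k (N + j) x - k N x = k (N + j) y - k N y ∧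
        ∀ i < k (N + j) x - k N x, x (i + k N x) = y (i + k N y) := by
      intro j
      induction j with
      | zero => simp
      | succ j ih =>
        obtain ⟨a1, a2⟩ := cd_inj (h (N + j) (Nat.le_add_right _ _))
        have b1 : k N x ≤ k (N + j) x := kmono x (Nat.le_add_right _ _)
        have b2 : k N y ≤ k (N + j) y := kmono y (Nat.le_add_right _ _)
        have b3 : k (N + j) x ≤ k (N + j + 1) x := kmono x (Nat.le_succ _)
        have b4 : k (N + j) y ≤ k (N + j + 1) y := kmono y (Nat.le_succ _)
        have b5 := ih.1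
        rw [← add_assoc]
        refine ⟨by omega, fun i hi => ?_⟩
        by_cases h2 : i < k (N + j) x - k N x
        · exact ih.2 i h2
        · have := a2 (i - (k (N + j) x - k N x)) (by omega)
          simp only [sh] at this
          rw [show i + k N x = i - (k (N + j) x - k N x) + k (N + j) x by omega,
            show i + k N y = i - (k (N + j) x - k N x) + k (N + j) y by omega]
          exact this
    intro i
    obtain ⟨n, hn⟩ := kinf x hx (i + k N x + 1)
    have b1 : k n x ≤ k (N + n) x := kmono x (Nat.le_add_left _ _)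
    exact (h1 n).2 i (by omega)
  have key2 : ∀ x y a b n, (∀ i, x (i + a) = y (i + b)) → a ≤ k n x → b ≤ k n y →
      k n y - b ≤ k n x - a := by
    intro x y a b n h h1 h2
    have : k n y ≤ k n x - a + b := by
      refine kl n y _ fun i hi => ?_
      rw [← add_assoc, ← h, ← wi x y ⟨a, b, h⟩, ← ks n x i hi]
      congr 1
      omega
    omega
  refine ⟨fun x n => if Et x (w x) then 2 * e₁ x n + 1 else 2 * e₂ x n,
    measurable_pi_lambda _ fun n => Measurable.ite Sm (((m1 n).const_mul 2).add_const 1)
      ((m2 n).const_mul 2), fun x y h => ?_, fun x y => ⟨fun h => ?_, ?_⟩⟩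
  · have h' := congrFun h
    by_cases hx : Et x (w x) <;> by_cases hy : Et y (w y) <;> simp only [hx, hy, if_true,
      if_false] at h'
    · have a1 : w x = w y := funext fun n => tn _ _ (by
        have : 2 * (w x n).toNat + 1 = 2 * (w y n).toNat + 1 := h' (n + 1)
        omega)
      have a2 : Nat.pair (c x) (cd (c x).unpair.1 x) = Nat.pair (c y) (cd (c y).unpair.1 y) := by
        have : 2 * Nat.pair (c x) (cd (c x).unpair.1 x) + 1 =
          2 * Nat.pair (c y) (cd (c y).unpair.1 y) + 1 := h' 0
        omega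
      obtain ⟨a3, a4⟩ := Nat.pair_eq_pair.mp a2
      have a5 := hc x ((PS x).mp hx)
      have a6 := hc y ((PS y).mp hy)
      funext i
      by_cases hi : i < (c x).unpair.1
      · exact (cd_inj a4).2 i hi
      · have b1 := a5 (i - (c x).unpair.1)
        have b2 := a6 (i - (c x).unpair.1)
        rw [← a3, ← a1, ← b1, Nat.sub_add_cancel (not_lt.mp hi)] at b2
        exact b2.symm
    · have := h' 0
      omega
    · have := h' 0
      omega
    · funext i
      have := key x y 0 hx (fun m _ => by have := h' m; omega) i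
      rwa [k0, k0] at this
  · by_cases hx : Et x (w x)
    · have hy := Si x y h hx
      refine ⟨1, fun m hm => ?_⟩
      obtain ⟨m, rfl⟩ := Nat.exists_eq_add_of_le' hm
      simp only [hx, hy, if_true, e₁]
      rw [wi x y h]
    · have hy : ¬ Et y (w y) := fun hy => hx (Si y x (et_symm h) hy)
      obtain ⟨a, b, hab⟩ := h
      obtain ⟨n₁, h₁⟩ := kinf x hx a
      obtain ⟨n₂, h₂⟩ := kinf y hy b
      have h3 : ∀ m ≥ max n₁ n₂, a ≤ k m x ∧ b ≤ k m y ∧ k m x - a = k m y - b := by
        intro m hm
        have a1 : a ≤ k m x := h₁.trans (kmono x ((le_max_left _ _).trans hm))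
        have a2 : b ≤ k m y := h₂.trans (kmono y ((le_max_right _ _).trans hm))
        exact ⟨a1, a2, le_antisymm (key2 y x b a m (fun i => (hab i).symm) a2 a1)
          (key2 x y a b m hab a1 a2)⟩
      refine ⟨max n₁ n₂, fun m hm => ?_⟩
      obtain ⟨a1, a2, a3⟩ := h3 m hm
      obtain ⟨b1, b2, b3⟩ := h3 (m + 1) (hm.trans (Nat.le_succ m))
      simp only [hx, hy, if_false, e₂]
      have c1 : k (m + 1) x - k m x = k (m + 1) y - k m y := by omega
      have c2 : sh (k m x) x = sh (k m y) y := by
        funext i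
        simp only [sh]
        rw [show i + k m x = i + (k m x - a) + a by omega, hab]
        congr 1
        omega
      rw [c1, c2]
  · rintro ⟨N, h⟩
    by_cases hx : Et x (w x) <;> by_cases hy : Et y (w y) <;> simp only [hx, hy, if_true,
      if_false] at h
    · refine et_trans hx (et_trans ⟨N, N, fun n => tn _ _ ?_⟩ (et_symm hy))
      have : 2 * (w x (n + N)).toNat + 1 = 2 * (w y (n + N)).toNat + 1 :=
        h (n + N + 1) (by omega)
      omega
    · have := h N le_rfl
      omega
    · have := h N le_rfl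
      omega
    · exact ⟨_, _, key x y N hx fun m hm => by have := h m hm; omega⟩

end EtAux

theorem etStmt : EtStmt := ⟨EtAux.part1, EtAux.part2, EtAux.et_equiv⟩

end Pool.Agent.H874Z.CA
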